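import Pool.Agent.W581.HQ.Stm

/-! # HQ-SUP: supporting functions -/

set_option autoImplicit false

namespace Pool.Agent.W554.HQ

open MeasureTheory Set Filter Topology
open Pool.Agent.W360.MQ (RC wf QA cab RankOneConvex Quasiconvex)
open Pool.Agent.W581.HQ

theorem mirror {p : ℝ} {φ : ℝ → ℝ} {x y : ℝ} (h : Sup p (fun t => φ (-t)) y x) :
    Sup p φ x y := by
  obtain ⟨α, β, hRC, hle, heq⟩ := h
  have hwp : ∀ x y : ℝ, wp p (fun t => φ (-t)) y x = wp p φ x y := by
    intro x y
    unfold wp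
    simp only
    rw [add_comm y x, ← neg_div, neg_sub]
  refine ⟨α, fun s => -β s, ?_, ?_, ?_⟩
  · intro τ
    have h1 := hRC (-τ)
    rw [abs_neg] at h1
    refine h1.congr fun t _ => ?_
    simp only
    ring
  · intro x y hx hy
    have h1 := hle y x hy hx
    rw [hwp] at h1
    rw [add_comm x y]
    linarith
  · rw [hwp] at heq
    rw [add_comm x y]
    linarith

theorem deriv_refl (φ : ℝ → ℝ) (t : ℝ) : deriv (fun u => φ (-u)) (-t) = -deriv φ t := by
  rw [deriv_comp_neg, neg_neg]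

theorem KK_eq (p : ℝ) (φ : ℝ → ℝ) (t : ℝ) :
    KK p φ t = (p - 2) * deriv φ t - p * (φ t - t * deriv φ t) := by
  unfold KK; ring

theorem KK_refl (p : ℝ) (φ : ℝ → ℝ) (t : ℝ) :
    KK p (fun u => φ (-u)) (-t) = -((p - 2) * deriv φ t) - p * (φ t - t * deriv φ t) := by
  unfold KK
  rw [deriv_refl]
  simp only [neg_neg]
  ring

theorem abs_cond {p : ℝ} {φ : ℝ → ℝ} {t : ℝ} (h1 : KK p φ t ≤ 0)
    (h2 : KK p (fun u => φ (-u)) (-t) ≤ 0) :
    |p - 2| * |deriv φ t| ≤ p * (φ t - t * deriv φ t) := by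
  rw [KK_eq] at h1
  rw [KK_refl] at h2
  rw [← abs_mul, abs_le]
  constructor <;> linarith

theorem zero_case (h1 : S_SUPA) (h3 : S_TC) {p : ℝ} {φ : ℝ → ℝ} (hD : DH p φ)
    (hK : 0 < KK p φ 0) : Sup p φ 0 0 := by
  obtain ⟨tc, hT, htc⟩ := h3 p φ hD 0 (by constructor <;> norm_num) hK
  have hp := hD.p1
  have hz := hT.zero
  rw [KK_eq] at hz
  have hlim : 0 ≤ p * tc + p - 2 := by
    by_contra hcon
    push Not at hcon
    -- t slightly larger than tc
    set δ : ℝ := min (-(p * tc + p - 2) / p) (1 - tc) with hδ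
    have hδ0 : 0 < δ := by
      apply lt_min
      · apply div_pos <;> linarith
      · linarith [hT.lt]
    have hδ1 : δ ≤ -(p * tc + p - 2) / p := min_le_left _ _
    have hδ2 : δ ≤ 1 - tc := min_le_right _ _
    have h5 := (hT.pos (tc + δ) ⟨by linarith, by linarith⟩).2.1
    rw [le_div_iff₀ (by linarith)] at hδ1
    nlinarith
  have htc1 : 0 < 1 + tc := by
    by_contra hcon
    push Not at hcon
    nlinarith
  have hmem : tc ∈ Icc (-1 : ℝ) 1 := ⟨hT.ge, hT.lt.le⟩
  have ha := hD.a0 tc hmem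
  have hpos : 0 ≤ (p - 2) * deriv φ tc := by
    have h6 : 0 ≤ ((p - 2) * deriv φ tc) * (1 + tc) := by nlinarith
    by_contra hcon
    push Not at hcon
    nlinarith
  refine (h1 p φ hD tc hmem ?_).1
  rw [← abs_mul, abs_of_nonneg hpos]
  linarith

theorem main (h1 : S_SUPA) (h2 : S_SUPB) (h3 : S_TC) : S_SUP := by
  intro p φ hD hD' x y hx hy
  by_cases hs : x + y = 0
  · have hx0 : x = 0 := by linarith
    have hy0 : y = 0 := by linarith
    subst hx0
    subst hy0
    by_cases c1 : 0 < KK p φ 0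
    · exact zero_case h1 h3 hD c1
    · by_cases c2 : 0 < KK p (fun u => φ (-u)) 0
      · exact mirror (zero_case h1 h3 hD' c2)
      · refine (h1 p φ hD 0 (by constructor <;> norm_num) (abs_cond (not_lt.1 c1) ?_)).1
        rw [neg_zero]
        exact not_lt.1 c2
  · have hs0 : 0 < x + y := lt_of_le_of_ne (by linarith) (Ne.symm hs)
    set s := x + y with hsd
    set t := (x - y) / s with ht
    have hxe : s * (1 + t) / 2 = x := by
      rw [ht]; field_simp; rw [hsd]; ring
    have hye : s * (1 - t) / 2 = y := by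
      rw [ht]; field_simp; rw [hsd]; ring
    have htm : t ∈ Icc (-1 : ℝ) 1 := by
      rw [ht]
      constructor
      · rw [le_div_iff₀ hs0]; linarith
      · rw [div_le_iff₀ hs0]; linarith
    have htm' : -t ∈ Icc (-1 : ℝ) 1 := ⟨by linarith [htm.2], by linarith [htm.1]⟩
    by_cases c1 : 0 < KK p φ t
    · have := h2 p φ hD t htm c1 s hs0
      rwa [hxe, hye] at this
    · by_cases c2 : 0 < KK p (fun u => φ (-u)) (-t)
      · have := h2 p _ hD' (-t) htm' c2 s hs0
        rw [sub_neg_eq_add, ← sub_eq_add_neg, hxe, hye] at this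
        exact mirror this
      · have := (h1 p φ hD t htm (abs_cond (not_lt.1 c1) (not_lt.1 c2))).2 s hs0
        rwa [hxe, hye] at this

end Pool.Agent.W554.HQ
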